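import Pool.Agent.H88.MC.Targets

/-! # Module RG: almost all graphs have few balanced bipartitions -/

namespace Pool.Agent.H81.E0

open Pool.Agent.H88.MC Finset

open scoped Classical in
theorem RG_sum (c : ℝ) (n : ℕ) :
    ∑ G : SimpleGraph (Fin n), (numBal c G : ℝ) =
      ∑ y : Fin n → Bool, (#{G : SimpleGraph (Fin n) | Bal c G y} : ℝ) := by
  have h1 : ∀ G : SimpleGraph (Fin n), (numBal c G : ℝ) =
      ∑ y : Fin n → Bool, if Bal c G y then (1 : ℝ) else 0 := by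
    intro G
    unfold numBal
    rw [Finset.card_filter]
    push_cast
    rfl
  have h2 : ∀ y : Fin n → Bool, (#{G : SimpleGraph (Fin n) | Bal c G y} : ℝ) =
      ∑ G : SimpleGraph (Fin n), if Bal c G y then (1 : ℝ) else 0 := by
    intro y
    rw [Finset.card_filter]
    push_cast
    rfl
  rw [Finset.sum_congr rfl fun G _ => h1 G, Finset.sum_congr rfl fun y _ => h2 y]
  exact Finset.sum_comm

open scoped Classical in
theorem pf_rg (hRG1 : T_RG1) : T_RG := by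
  obtain ⟨c, hc, n1, h⟩ := hRG1
  refine ⟨c, hc, n1, fun n hn => ?_⟩
  have h1 := h n hn
  obtain ⟨N, hN⟩ : ∃ N : ℝ, N = (Fintype.card (SimpleGraph (Fin n)) : ℝ) := ⟨_, rfl⟩
  rw [← hN]
  rw [← hN] at h1
  -- the sum of the numbers of balanced bipartitions
  have h2 : ∑ G : SimpleGraph (Fin n), (numBal c G : ℝ) ≤ 2 ^ (n : ℝ) * (2 ^ (-(2 * c * n)) * N) := by
    rw [RG_sum]
    refine (Finset.sum_le_card_nsmul _ _ _ fun y _ => h1 y).trans (le_of_eq ?_)
    rw [nsmul_eq_mul]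
    congr 1
    rw [Finset.card_univ, Fintype.card_fun, Fintype.card_bool, Fintype.card_fin]
    push_cast
    rw [Real.rpow_natCast]
  -- Markov
  have h3 : (#{G : SimpleGraph (Fin n) | (2 : ℝ) ^ ((1 - c) * n) < numBal c G} : ℝ) *
      2 ^ ((1 - c) * (n : ℝ)) ≤ 2 ^ (n : ℝ) * (2 ^ (-(2 * c * n)) * N) := by
    refine le_trans ?_ h2
    rw [← nsmul_eq_mul]
    refine (Finset.card_nsmul_le_sum _ (fun G : SimpleGraph (Fin n) => (numBal c G : ℝ)) _
      fun G hG => ?_).trans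
      (Finset.sum_le_sum_of_subset_of_nonneg (Finset.subset_univ _) fun G _ _ =>
        Nat.cast_nonneg _)
    exact (Finset.mem_filter.1 hG).2.le
  have h4 : (2 : ℝ) ^ (n : ℝ) * (2 ^ (-(2 * c * n)) * N) =
      (2 ^ (-(c * n)) * N) * 2 ^ ((1 - c) * (n : ℝ)) := by
    have e : (2 : ℝ) ^ (n : ℝ) * 2 ^ (-(2 * c * n)) = 2 ^ (-(c * n)) * 2 ^ ((1 - c) * (n : ℝ)) := by
      rw [← Real.rpow_add (by norm_num), ← Real.rpow_add (by norm_num)]
      congr 1
      ring
    calc (2 : ℝ) ^ (n : ℝ) * (2 ^ (-(2 * c * n)) * N)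
        = ((2 : ℝ) ^ (n : ℝ) * 2 ^ (-(2 * c * n))) * N := by ring
      _ = (2 ^ (-(c * n)) * N) * 2 ^ ((1 - c) * (n : ℝ)) := by rw [e]; ring
  rw [h4] at h3
  exact le_of_mul_le_mul_right h3 (Real.rpow_pos_of_pos (by norm_num) _)

end Pool.Agent.H81.E0
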